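import Mathlib
import Pool.Agent.Helper394.Wrap
import Pool.Agent.Y307.Prof.Walk

open Finset Filter Topology
open Pool.Agent

namespace Pool.Agent.Results.MP_8d2225_pr.ExponentialProfile

noncomputable section

/-- Worst-case total variation distance at time `t` between the chain with transition
matrix `P` and the distribution `π`:
`d(t) = max_x (1/2) * ∑_y |P^t(x,y) - π(y)|`. -/
def dTV {Ω : Type} [Fintype Ω] [DecidableEq Ω] (P : Matrix Ω Ω ℝ) (π : Ω → ℝ) (t : ℕ) : ℝ :=
  ⨆ x : Ω, (1 / 2 : ℝ) * ∑ y, |(P ^ t) x y - π y|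

/-- The mixing time `T_mix(ε) = min {t ≥ 0 : d(t) ≤ ε}`. -/
def tmix {Ω : Type} [Fintype Ω] [DecidableEq Ω] (P : Matrix Ω Ω ℝ) (π : Ω → ℝ) (ε : ℝ) : ℕ :=
  sInf {t : ℕ | dTV P π t ≤ ε}

/-- The second largest eigenvalue of an irreducible transition matrix `P` (for which the
eigenvalue `1` is simple): the largest real eigenvalue different from `1`. -/
def lambda2 {Ω : Type} [Fintype Ω] [DecidableEq Ω] (P : Matrix Ω Ω ℝ) : ℝ :=
  sSup (spectrum ℝ P \ {1})

/-- The relaxation time `T_rel = 1 / (1 - λ₂)`. -/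
def trel {Ω : Type} [Fintype Ω] [DecidableEq Ω] (P : Matrix Ω Ω ℝ) : ℝ :=
  1 / (1 - lambda2 P)

/-- The uniform distribution. -/
def unif (G : Type) [Fintype G] : G → ℝ := fun _ => 1 / (Fintype.card G : ℝ)

/-- Transition matrix of the lazy simple random walk on `Cay(G, S)`: stay put with
probability `1/2`, otherwise move from `x` to `x + s` with `s` uniform in `S`. -/
def lazyWalk {G : Type} [AddCommGroup G] [DecidableEq G] (S : Finset G) : Matrix G G ℝ :=
  fun x y => (if y = x then 1 / 2 else 0) + (if y - x ∈ S then 1 / (2 * (S.card : ℝ)) else 0)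

/-- The product condition `T_mix(1/4) / T_rel → ∞` for a sequence of chains. -/
def ProductCondition (Ω : ℕ → Type) [∀ n, Fintype (Ω n)] [∀ n, DecidableEq (Ω n)]
    (P : ∀ n, Matrix (Ω n) (Ω n) ℝ) (π : ∀ n, Ω n → ℝ) : Prop :=
  Tendsto (fun n => (tmix (P n) (π n) (1 / 4) : ℝ) / trel (P n)) atTop atTop

/-- Total variation cutoff for a sequence of chains:
`T_mix(ε) / T_mix(1-ε) → 1` for every fixed `ε ∈ (0,1/2)`. -/
def HasCutoff (Ω : ℕ → Type) [∀ n, Fintype (Ω n)] [∀ n, DecidableEq (Ω n)]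
    (P : ∀ n, Matrix (Ω n) (Ω n) ℝ) (π : ∀ n, Ω n → ℝ) : Prop :=
  ∀ ε : ℝ, 0 < ε → ε < 1 / 2 →
    Tendsto (fun n => (tmix (P n) (π n) ε : ℝ) / (tmix (P n) (π n) (1 - ε) : ℝ)) atTop (𝓝 1)

section

variable {G : Type} [AddCommGroup G] [Fintype G] [DecidableEq G]

theorem lazyWalk_mulVec (S : Finset G) (f : G → ℝ) :
    (lazyWalk S).mulVec f = Helper394.V S f := by
  ext x
  rw [Helper394.V_apply, Helper394.U_apply]
  simp only [Matrix.mulVec, dotProduct, lazyWalk, add_mul, ite_mul, zero_mul]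
  rw [Finset.sum_add_distrib]
  congr 1
  · rw [Finset.sum_ite_eq' univ x]
    simp
    ring
  · rw [← Finset.sum_filter]
    rw [div_div, Finset.sum_div]
    refine Finset.sum_bij' (fun y _ => y - x) (fun s _ => x + s) ?_ ?_ ?_ ?_ ?_
    · intro y hy; simpa using hy
    · intro s hs; simpa using hs
    · intro y _; simp
    · intro s _; simp
    · intro y _
      simp only [add_sub_cancel]
      ring

/-- Sanity check: the rows of the transition matrix sum to one. -/
theorem lazyWalk_row_sum (S : Finset G) (hS : S.Nonempty) (x : G) :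
    ∑ y, lazyWalk S x y = 1 := by
  have h := congrFun (lazyWalk_mulVec S (fun _ => 1)) x
  have h2 := Helper394.V_pow_const S hS 1 1
  rw [pow_one] at h2
  rw [h2] at h
  simpa [Matrix.mulVec, dotProduct] using h

/-- Sanity check: the walk is reversible with respect to the uniform distribution. -/
theorem lazyWalk_symm (S : Finset G) (hS : ∀ s ∈ S, -s ∈ S) (x y : G) :
    lazyWalk S x y = lazyWalk S y x := by
  have h1 : (y = x) ↔ (x = y) := eq_comm
  have h2 : (y - x ∈ S) ↔ (x - y ∈ S) := by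
    constructor
    · intro h; have := hS _ h; rwa [neg_sub] at this
    · intro h; have := hS _ h; rwa [neg_sub] at this
  simp only [lazyWalk, h1, h2]

end

/-- There are moduli `N_n → ∞`, symmetric generating sets `S_n ⊆ ℤ/N_n` not containing `0` and
times `t_n → ∞` such that the lazy simple random walks on `Cay(ℤ/N_n, S_n)` have relaxation
times at most `8`, while their worst-case total variation distance has the limit profile
`d_n(⌊s t_n⌋) → e^{-s}` for every `s ≥ 0`, and `T_mix(ε)/t_n → log(1/ε)` for every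
`ε ∈ (0,1)`. In particular the product condition holds, the ratio
`T_mix(ε)/T_mix(1-ε)` tends to `log(1/ε)/log(1/(1-ε)) > 1` for every `ε ∈ (0,1/2)`, and
there is no cutoff. -/
theorem result :
    ∃ (N : ℕ → ℕ) (_ : ∀ n, NeZero (N n)) (S : ∀ n, Finset (ZMod (N n))) (t : ℕ → ℝ),
      Tendsto N atTop atTop ∧
      (∀ n, (0 : ZMod (N n)) ∉ S n) ∧
      (∀ n, ∀ s ∈ S n, -s ∈ S n) ∧
      (∀ n, AddSubgroup.closure (S n : Set (ZMod (N n))) = ⊤) ∧
      (∀ n, 0 < trel (lazyWalk (S n)) ∧ trel (lazyWalk (S n)) ≤ 8) ∧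
      Tendsto t atTop atTop ∧
      (∀ s : ℝ, 0 ≤ s →
        Tendsto (fun n => dTV (lazyWalk (S n)) (unif (ZMod (N n))) ⌊s * t n⌋₊) atTop
          (𝓝 (Real.exp (-s)))) ∧
      (∀ ε : ℝ, 0 < ε → ε < 1 →
        Tendsto (fun n => (tmix (lazyWalk (S n)) (unif (ZMod (N n))) ε : ℝ) / t n) atTop
          (𝓝 (Real.log (1 / ε)))) ∧
      (∀ ε : ℝ, 0 < ε → ε < 1 / 2 →
        1 < Real.log (1 / ε) / Real.log (1 / (1 - ε)) ∧
        Tendsto (fun n => (tmix (lazyWalk (S n)) (unif (ZMod (N n))) ε : ℝ) /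
            (tmix (lazyWalk (S n)) (unif (ZMod (N n))) (1 - ε) : ℝ)) atTop
          (𝓝 (Real.log (1 / ε) / Real.log (1 / (1 - ε))))) ∧
      ProductCondition (fun n => ZMod (N n)) (fun n => lazyWalk (S n))
        (fun n => unif (ZMod (N n))) ∧
      ¬ HasCutoff (fun n => ZMod (N n)) (fun n => lazyWalk (S n))
        (fun n => unif (ZMod (N n))) := by
  obtain ⟨N, hN, S, w, hNn, hw1, hw2, hE⟩ := Y307.Prof.exists_seq
  have hB : ∀ n, Helper394.Bad (S n) (n + 64) := fun n =>
    (hE n).bad (by omega) (by nlinarith) (by omega) (by push_cast; exact hw1 n)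
      (by push_cast; exact hw2 n)
  have hP : ∀ n, ∀ f : ZMod (N n) → ℝ, (lazyWalk (S n)).mulVec f = Helper394.V (S n) f :=
    fun n f => lazyWalk_mulVec (S n) f
  have hsq : Y307.Prof.Squeeze (fun n k => dTV (lazyWalk (S n)) (unif (ZMod (N n))) k)
      (fun n => 1 - (1 / 2) * (1 - w n)) (fun n => 1 / w n ^ 2)
      (fun n => 1 / ((1 / 2) * (1 - w n))) (fun n => (n + 64) ^ 2) (fun n => n + 64) := by
    refine Y307.Prof.squeeze_of hw1 hw2 (1 / 2) le_rfl (by norm_num) _ ?_ ?_
    · intro n k hk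
      have h1 := (hE n).tv_lazy (by omega)
        (fun t x => Helper394.row_sum (hB n) (hP n) t x) (hP n) k hk
      have e : (1 : ℝ) - 1 / 2 * (1 - w n) = (1 + w n) / 2 := by ring
      rw [e]
      refine h1.trans ?_
      exact Helper394.ciSup_ge_val
        (fun x : ZMod (N n) =>
          (1 / 2 : ℝ) * ∑ y, |((lazyWalk (S n)) ^ k) x y - unif (ZMod (N n)) y|) 0
    · intro n k
      apply ciSup_le
      intro x
      have e : (1 : ℝ) - 1 / 2 * (1 - w n) = (1 + w n) / 2 := by ring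
      rw [e]
      exact Y307.Prof.tv_le_of_min _ (Helper394.row_sum (hB n) (hP n) k x) _ (fun y =>
        (hE n).entry (by omega) (Y307.Prof.w_pos hw2 n) (Y307.Prof.w_lt hw1 n) (hP n) k x y)
  have hrel : ∀ n, 0 < trel (lazyWalk (S n)) ∧ trel (lazyWalk (S n)) ≤ 8 := by
    intro n
    obtain ⟨h4, h5⟩ := Helper394.lam2_bound (lazyWalk (S n))
      (fun lam hlam hne => Helper394.fact_spec (hB n) (hP n) lam hlam hne)
    have h6 : 0 < 1 - lambda2 (lazyWalk (S n)) := by
      have : lambda2 (lazyWalk (S n)) ≤ 7 / 8 := h5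
      linarith
    refine ⟨one_div_pos.mpr h6, ?_⟩
    rw [trel, div_le_iff₀ h6]
    have : lambda2 (lazyWalk (S n)) ≤ 7 / 8 := h5
    linarith
  have hmix : ∀ ε : ℝ, 0 < ε → ε < 1 →
      Tendsto (fun n => (tmix (lazyWalk (S n)) (unif (ZMod (N n))) ε : ℝ) /
        (1 / ((1 / 2) * (1 - w n)))) atTop (𝓝 (Real.log (1 / ε))) :=
    fun ε h0 h1 => hsq.mixing h0 h1
  have hratio : ∀ ε : ℝ, 0 < ε → ε < 1 / 2 →
      Tendsto (fun n => (tmix (lazyWalk (S n)) (unif (ZMod (N n))) ε : ℝ) /
        (tmix (lazyWalk (S n)) (unif (ZMod (N n))) (1 - ε) : ℝ)) atTop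
        (𝓝 (Real.log (1 / ε) / Real.log (1 / (1 - ε)))) :=
    fun ε h0 h1 => hsq.ratio h0 (by linarith) (by linarith) (by linarith)
  refine ⟨N, hN, S, fun n => 1 / ((1 / 2) * (1 - w n)), ?_, fun n => (hE n).zero,
    fun n => (hE n).neg, ?_, hrel, hsq.tlim, fun s hs => hsq.profile hs, hmix,
    fun ε h0 h1 => ⟨Y307.Prof.log_ratio_ne h0 h1, hratio ε h0 h1⟩, ?_, ?_⟩
  · refine tendsto_atTop_mono (fun n => ?_) tendsto_id
    have := hNn n
    simp only [id]
    omega
  · intro n
    rw [eq_top_iff]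
    intro x _
    refine (hB n).closed (AddSubgroup.closure (S n : Set (ZMod (N n))) : Set (ZMod (N n))) 0
      (AddSubgroup.zero_mem _) ?_ x
    intro y hy s hs
    exact AddSubgroup.add_mem _ hy (AddSubgroup.subset_closure hs)
  · have h1 : Tendsto (fun n => ((tmix (lazyWalk (S n)) (unif (ZMod (N n))) (1 / 4) : ℝ) /
        (1 / ((1 / 2) * (1 - w n)))) * (1 / ((1 / 2) * (1 - w n)))) atTop atTop := by
      refine (hmix (1 / 4) (by norm_num) (by norm_num)).pos_mul_atTop ?_ hsq.tlim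
      apply Real.log_pos
      norm_num
    have h2 : Tendsto (fun n => (tmix (lazyWalk (S n)) (unif (ZMod (N n))) (1 / 4) : ℝ) / 8)
        atTop atTop := by
      refine (h1.atTop_div_const (by norm_num : (0 : ℝ) < 8)).congr fun n => ?_
      have h3 : (1 / ((1 / 2) * (1 - w n)) : ℝ) ≠ 0 := by
        have := hsq.tpos n
        linarith
      rw [div_mul_cancel₀ _ h3]
    refine tendsto_atTop_mono (fun n => ?_) h2
    exact div_le_div_of_nonneg_left (Nat.cast_nonneg _) (hrel n).1 (hrel n).2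
  · intro hcut
    have h1 := tendsto_nhds_unique (hcut (1 / 4) (by norm_num) (by norm_num))
      (hratio (1 / 4) (by norm_num) (by norm_num))
    have h2 := Y307.Prof.log_ratio_ne (ε := 1 / 4) (by norm_num) (by norm_num)
    linarith

end

end Pool.Agent.Results.MP_8d2225_pr.ExponentialProfile
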